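import Mathlib
import Pool.Agent.T2h16.BK.All

/-!
# The Bloch–Kato Selmer groups of all odd weights over `K = ℚ(√-7)` and its multiquadratic extensions
for the quadratic twists of `X_0(49)` by the elements of `𝓞 K`

`K = ℚ(√-7)` with ring of integers `ℤ[ω]`, `ω² = ω - 2`; `(2) = (ω) (1 - ω)`. The class consists of ALL
the squarefree `D = 1 mod 4` of `ℤ[ω]` prime to `√-7`; `E_D` is the quadratic twist of `X_0(49)` by `D`, in
general not defined over `ℚ`, with complex multiplication by `ℤ[ω]`. The group `Gal(ℚ̄/K)` acts on its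
`2`-adic Tate module by two characters `κ`, `κ'`. For `k > 0` the representation
`H^{2k-1}(E_D^{2k-1}, ℚ_2(k))` of `Gal(ℚ̄/K)` contains `ℚ_2(κ^k κ'^(1-k)) ⊕ ℚ_2(κ^(1-k) κ'^k)`, the `2`-adic
realization at the central point of the motive of the Hecke character `ψ_D^{2k-1}`.

A pair of `M` and of `K(√d_1, …, √d_n)` is good if all the `M ∏_{i ∈ T} d_i` are, up to squares, elements `D`
of the class such that `E_D(K)` is finite and `Ш(E_D/K)` has no element of order two: a condition on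
the weight `2` and the field `K` only.
* If the pair is good then the Bloch–Kato Selmer groups over `L = K(√d_1, …, √d_n)` of these
  representations are zero for all odd `k > 0`.
* For exactly the proportion `∏_{i ≥ 1} (1 - 2^(-i)) = 0.2887…` of the `D` of the class, `E_D(K)` is finite,
  `Ш(E_D/K)` has no element of order two, and so all these groups of `E_D` over `K` and all these groups of
  `X_0(49)` over `K(√D)` are zero.
* The pair of `1` and `K` is good (the curve `X_0(49)` itself), and for every good pair of elements of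
  the class the pair of `M` and `K(√d_1, …, √d_n, √p)` is good for the infinitely many prime numbers `p`
  inert in `K` and `1` modulo `4 N(M ∏ d_i)`. So there are towers of fields of degrees `2 ^ n` over `K`,
  for all `n`, over which all these groups are zero.

Joint work: the local analysis modulo `8` (`Pool/Agent/T2h16/BK`): helper16, helper18, helper25, helper62,
helper93; the descent over `K` and the proportion: see `Pool/Agent/T2h16/KE/All.lean`,
`Pool/Agent/T2h16/KD/All.lean`. The method for the weights is that of the starting file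
`Pool.Agent.Results.MP_787500_nt.AllWeightsMultiquadraticX49` (`Pool/Agent/R384`).
-/

set_option autoImplicit false

namespace Pool.Agent.Results.MP_009fd8_ag.AllOddWeightsX49

open WeierstrassCurve Filter Topology
open scoped Classical

/-! ### The curves -/

/-- An algebraic closure of `ℚ`. -/
abbrev QBar : Type := AlgebraicClosure ℚ

/-- The ring of integers `ℤ[ω]`, `ω² = ω - 2`, of `ℚ(√-7)`. -/
abbrev OK : Type := QuadraticAlgebra ℤ (-2) 1

/-- The field `K = ℚ(w)`. It is `ℚ(√-7)` if `w² = w - 2`. -/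
noncomputable abbrev K (w : QBar) : IntermediateField ℚ QBar := IntermediateField.adjoin ℚ {w}

/-- `w` as an element of `K`. -/
noncomputable def gen (w : QBar) : K w := ⟨w, IntermediateField.mem_adjoin_simple_self ℚ w⟩

/-- The element `a + b ω` of `ℤ[ω]` as an element of the field `L`, `w` being the image of `ω`. -/
def emb {L : Type} [Ring L] (w : L) (z : OK) : L := z.re + z.im * w

/-- The curve `y² = x³ + 3 (1 - w) d x² + w⁴ d² x`. -/
def curve {F : Type} [Field F] (w d : F) : WeierstrassCurve F :=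
  ⟨0, 3 * (1 - w) * d, 0, w ^ 4 * d ^ 2, 0⟩

/-- The curve `E_D : y² = x³ + 3 (1 - ω) D x² + ω⁴ D² x` over `K`. -/
noncomputable def ED (w : QBar) (D : OK) : WeierstrassCurve (K w) := curve (gen w) (emb (gen w) D)

/-- The absolute Galois group of `K`. -/
abbrev Gal (w : QBar) : Type := QBar ≃ₐ[K w] QBar

/-- The subgroups of the Galois group. -/
abbrev Sub (w : QBar) : Type := Subgroup (Gal w)

/-- The characters of the Galois group with values in the units of `ℤ_2`. -/
abbrev Chr (w : QBar) : Type := Gal w →* ℤ_[2]ˣ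

/-- The values of the character `χ`, in `ℤ_2`. -/
noncomputable def zv {w : QBar} (χ : Chr w) (σ : Gal w) : ℤ_[2] := ((χ σ : ℤ_[2]ˣ) : ℤ_[2])

/-- The values of the character `χ`, in `ℚ_2`. -/
noncomputable def qv {w : QBar} (χ : Chr w) (σ : Gal w) : ℚ_[2] := ((zv χ σ : ℤ_[2]) : ℚ_[2])

/-- The group `E_D(ℚ̄)`. -/
abbrev Pts (w : QBar) (D : OK) : Type := ((ED w D).toAffine.baseChange QBar).Point

/-- The action of the Galois group on `E_D(ℚ̄)`. -/
noncomputable def act {w : QBar} {D : OK} (σ : Gal w) : Pts w D →+ Pts w D :=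
  Affine.Point.map (W' := (ED w D).toAffine) (S := K w) (F := QBar) (K := QBar) σ.toAlgHom

/-- The sequences `x` and `y` are elements of the `2`-adic Tate module of the abelian group `A`, and
they are a basis of it. -/
structure IsBasis {A : Type} [AddCommGroup A] (x y : ℕ → A) : Prop where
  zero : x 0 = 0 ∧ y 0 = 0
  double : ∀ n, x (n + 1) + x (n + 1) = x n ∧ y (n + 1) + y (n + 1) = y n
  span : ∀ (n : ℕ) (P : A), (2 ^ n : ℤ) • P = 0 → ∃ a b : ℤ, P = a • x n + b • y n
  indep : ∀ (n : ℕ) (a b : ℤ), a • x n + b • y n = 0 → (2 ^ n : ℤ) ∣ a ∧ (2 ^ n : ℤ) ∣ b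

/-- The endomorphism `f` of the abelian group `A` acts on the element `x` of its `2`-adic Tate module
as the multiplication by the `2`-adic integer `z`. -/
def ActsBy {A : Type} [AddCommGroup A] (f : A →+ A) (x : ℕ → A) (z : ℤ_[2]) : Prop :=
  ∀ (n : ℕ) (k : ℤ), (2 : ℤ_[2]) ^ n ∣ z - k → f (x n) = k • x n

/-! ### The Selmer groups -/

/-- The decomposition group of the place of `K` given by the embedding `ι` of `ℚ̄`. -/
def Dec {w : QBar} {p : ℕ} [Fact p.Prime] (ι : QBar →ₐ[ℚ] PadicAlgCl p) : Set (Gal w) :=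
  {σ | ∃ τ : PadicAlgCl p ≃ₐ[ℚ_[p]] PadicAlgCl p, ∀ x, τ (ι x) = ι (σ x)}

/-- Its inertia group: the automorphisms which are trivial on the residue field. -/
def Inr {w : QBar} {p : ℕ} [Fact p.Prime] (ι : QBar →ₐ[ℚ] PadicAlgCl p) : Set (Gal w) :=
  {σ | ∃ τ : PadicAlgCl p ≃ₐ[ℚ_[p]] PadicAlgCl p, (∀ x, τ (ι x) = ι (σ x)) ∧
    ∀ z : PadicAlgCl p, ‖z‖ ≤ 1 → ‖τ z - z‖ < 1}

/-- The restriction of the function `c` to `H` is a continuous cocycle with values in `ℚ_2(χ)`. -/
structure IsCocycle {w : QBar} (H : Sub w) (χ : Chr w) (c : Gal w → ℚ_[2]) : Prop where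
  cont : ContinuousOn c H
  mul : ∀ σ ∈ H, ∀ τ ∈ H, c (σ * τ) = c σ + qv χ σ * c τ

/-- The restriction of `c` to the intersection of `S` and `H` is a coboundary. -/
def TrivialOn {w : QBar} (H : Sub w) (χ : Chr w) (S : Set (Gal w)) (c : Gal w → ℚ_[2]) : Prop :=
  ∃ y : ℚ_[2], ∀ σ ∈ S, σ ∈ H → c σ = (qv χ σ - 1) * y

/-- The Bloch–Kato conditions over the field `L` fixed by `H`, for a character `χ` whose Hodge–Tate
weight is positive at one of the two places of `K` above `2` and not positive at the other one, which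
is the one that divides `v`: the class is trivial on the inertia groups of the places of `L` prime to
`2` and on the decomposition groups of the places of `L` which divide `v`. -/
structure IsSelmer {w : QBar} (v : QBar) (H : Sub w) (χ : Chr w) (c : Gal w → ℚ_[2]) : Prop where
  odd : ∀ (p : ℕ) [Fact p.Prime] (ι : QBar →ₐ[ℚ] PadicAlgCl p), p ≠ 2 → TrivialOn H χ (Inr ι) c
  two : ∀ ι : QBar →ₐ[ℚ] PadicAlgCl 2, ‖ι v‖ < 1 → TrivialOn H χ (Dec ι) c

/-- All the classes of the Selmer group of `ℚ_2(χ)` over the field fixed by `H` are trivial. -/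
def SelmerZero {w : QBar} (v : QBar) (H : Sub w) (χ : Chr w) : Prop :=
  ∀ c : Gal w → ℚ_[2], IsCocycle H χ c → IsSelmer v H χ c → TrivialOn H χ Set.univ c

/-- The character `κ ^ j κ' ^ (1 - j)`. -/
noncomputable def chi {w : QBar} (κ κ' : Chr w) (j : ℤ) : Chr w := κ ^ j * κ' ^ (1 - j)

/-- `κ` has order at most two on the inertia groups of the places that do not divide `v`. -/
def FiniteOff {w : QBar} (v : QBar) (κ : Chr w) : Prop :=
  ∀ (p : ℕ) [Fact p.Prime] (ι : QBar →ₐ[ℚ] PadicAlgCl p), ‖ι v‖ = 1 → ∀ σ ∈ Inr ι, zv κ σ ^ 2 = 1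

/-- The character `κ` is continuous and the Galois group acts by it on the element `x` of the Tate
module. -/
def Eigen {w : QBar} {D : OK} (κ : Chr w) (x : ℕ → Pts w D) : Prop :=
  Continuous (zv κ) ∧ ∀ σ : Gal w, ActsBy (act σ) x (zv κ σ)

/-- The Galois group acts on the `2`-adic Tate module of `E_D` through the sum of the continuous
characters `κ`, `κ'`; the first one has order at most two on the inertia groups of the places that
do not divide `ω`, and the second one on those of the places that do not divide `1 - ω`. So `κ` has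
the Hodge–Tate weights `1` at `ω` and `0` at `1 - ω`, and `κ'` has the weights `0` at `ω` and `1` at
`1 - ω`. -/
def TateModule {w : QBar} (D : OK) (κ κ' : Chr w) : Prop :=
  (∃ x y : ℕ → Pts w D, IsBasis x y ∧ Eigen κ x ∧ Eigen κ' y) ∧
    FiniteOff w κ ∧ FiniteOff (1 - w) κ'

/-! ### The twists of `X_0(49)` -/

instance (w : QBar) : NumberField (K w) :=
  @NumberField.mk _ _ inferInstance
    (IntermediateField.adjoin.finiteDimensional (Algebra.IsIntegral.isIntegral w))

/-- The curve `y² + x y = x³ - ((1 + 3 d) / 4) x² - 2 d² x - d³`. -/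
def curveX {F : Type} [Field F] (d : F) : WeierstrassCurve F :=
  ⟨1, -(1 + 3 * d) / 4, 0, -2 * d ^ 2, -d ^ 3⟩

/-- The curve `E_D : y² + x y = x³ - ((1 + 3 D) / 4) x² - 2 D² x - D³` over `K`, the quadratic twist by `D`
of `X_0(49) : y² + x y = x³ - x² - 2 x - 1`. -/
noncomputable def EK (w : QBar) (D : OK) : WeierstrassCurve (K w) := curveX (emb (gen w) D)

/-- The Tate–Shafarevich group of the elliptic curve `W` has no element of order two. -/
def ShaTwoZero {F : Type} [Field F] [NumberField F] (W : WeierstrassCurve F) : Prop :=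
  ∀ x : Pool.Agent.TH841.NF.D.Sha W, 2 • x = 0 → x = 0

/-- `E_D(K)` is finite and `Ш(E_D/K)` has no element of order two. -/
def RankZeroShaTwo (w : QBar) (D : OK) : Prop :=
  Finite (EK w D).toAffine.Point ∧ ShaTwoZero (EK w D)

/-- The element `-√-7 D` of `ℤ[ω]`. -/
def tw (D : OK) : OK := -(⟨-1, 2⟩ * D)

/-- The norm of `D`. -/
def nrm (D : OK) : ℤ := D.re ^ 2 + D.re * D.im + 2 * D.im ^ 2

/-- The class: `D` is squarefree, `D = 1` modulo `4`, and `D` is prime to `√-7`. -/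
def InClass (D : OK) : Prop := Squarefree D ∧ (4 : OK) ∣ D - 1 ∧ ¬ (7 : ℤ) ∣ nrm D

/-- The good pairs: all the `M ∏_{i ∈ T} d_i` are, up to nonzero squares, elements `D` of the class such
that `E_D(K)` is finite and `Ш(E_D/K)` has no element of order two. -/
def Good (w : QBar) (M : OK) {n : ℕ} (d : Fin n → OK) : Prop := ∀ T : Finset (Fin n), ∃ D k : OK,
  k ≠ 0 ∧ InClass D ∧ RankZeroShaTwo w D ∧ M * ∏ i ∈ T, d i = D * k ^ 2

/-- The Galois group of `ℚ̄` over the field `L = K(s_1, …, s_n)`. -/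
noncomputable def GalL (w : QBar) {n : ℕ} (s : Fin n → QBar) : Sub w :=
  (IntermediateField.adjoin (K w) (Set.range s)).fixingSubgroup

/-- The curves are isomorphic: they differ by a change of variables. -/
def Iso {F : Type} [Field F] (W W' : WeierstrassCurve F) : Prop :=
  ∃ C : VariableChange F, C • W = W'

/-- All the classes of the Selmer groups over `L = K(s_1, …, s_n)` of `ℚ_2(κ^k κ'^(1-k))` and
`ℚ_2(κ^(1-k) κ'^k)` are trivial for all odd `k > 0`. -/
def OddWeights {w : QBar} (κ κ' : Chr w) {n : ℕ} (s : Fin n → QBar) : Prop :=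
  ∀ k : ℤ, 0 < k → Odd k → SelmerZero (1 - w) (GalL w s) (chi κ κ' k) ∧
    SelmerZero w (GalL w s) (chi κ κ' (1 - k))

/-- The curve `E_M` is isomorphic to the elliptic curve `ED w (tw M)`, the Galois group acts on its
`2`-adic Tate module by `κ`, `κ'`, and all the classes of the Selmer groups over
`L = K(√d_1, …, √d_n)` of `ℚ_2(κ^k κ'^(1-k))` and `ℚ_2(κ^(1-k) κ'^k)` are trivial for all odd
`k > 0`. -/
def AllWeights (w : QBar) (M : OK) {n : ℕ} (d : Fin n → OK) : Prop :=
  Iso (EK w M) (ED w (tw M)) ∧ (ED w (tw M)).IsElliptic ∧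
  ∃ κ κ' : Chr w, TateModule (tw M) κ κ' ∧
    ∀ s : Fin n → QBar, (∀ i, s i ^ 2 = emb w (d i)) → OddWeights κ κ' s

/-- The proportion `(1 - 1/2) (1 - 1/4) (1 - 1/8) ⋯`. -/
noncomputable def η : ℝ := ∏' i : ℕ, (1 - (1 / 2 : ℝ) ^ (i + 1))

/-- The proportion of the `D` of norm at most `X` with `P D` among those of the class. -/
noncomputable def prop (P : OK → Prop) (X : ℕ) : ℝ :=
  ({D : OK | nrm D ≤ X ∧ InClass D ∧ P D}.ncard : ℝ) / ({D : OK | nrm D ≤ X ∧ InClass D}.ncard : ℝ)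

/-- The elements `d_1, …, d_n, p`. -/
def add {n : ℕ} (d : Fin n → OK) (p : OK) : Fin (n + 1) → OK := Fin.snoc d p

/-- No product of some of the `d_i` is a square: `K(√d_1, …, √d_n)` has degree `2 ^ n` over `K`. -/
def Ind {n : ℕ} (d : Fin n → OK) : Prop :=
  ∀ T : Finset (Fin n), T.Nonempty → ¬ IsSquare (∏ i ∈ T, d i)

/-- The pairs of the towers: `M`, `d_1, …, d_n` are in the class, the `d_i` are independent modulo
squares, and the pair is good. -/
def Tower (w : QBar) (M : OK) {n : ℕ} (d : Fin n → OK) : Prop :=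
  InClass M ∧ (∀ i, InClass (d i)) ∧ Ind d ∧ Good w M d

/-- The prime numbers `p` which are inert in `K` and `1` modulo `4 N(M ∏ d_i)`. -/
def primes (M : OK) {n : ℕ} (d : Fin n → OK) : Set ℕ :=
  {p | p.Prime ∧ (p % 7 = 3 ∨ p % 7 = 5 ∨ p % 7 = 6) ∧ 4 * nrm (M * ∏ i, d i) ∣ (p : ℤ) - 1}

/-! ### The proof -/

section proof

open Pool.Agent.Y676.IS (Cu some_congr)
open Pool.Agent.R384 (WD ca cb em)

variable {w : QBar} (hw : w ^ 2 = w - 2) {D : OK}

lemma gen_sq : gen w ^ 2 = gen w - 2 ↔ w ^ 2 = w - 2 := by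
  rw [Subtype.ext_iff]
  rfl

lemma emb_eq (z : OK) : ((emb (gen w) z : K w) : QBar) = em hw z := by
  unfold emb
  rw [Pool.Agent.R384.em_apply]
  push_cast
  rfl

lemma curve_eq : (ED w D).toAffine.baseChange QBar = Cu (ca w (em hw D)) (cb w (em hw D)) := by
  have h1 : algebraMap (K w) QBar (gen w) = w := rfl
  have h2 : algebraMap (K w) QBar (emb (gen w) D) = em hw D := emb_eq hw D
  unfold ED curve Cu ca cb WeierstrassCurve.Affine.baseChange WeierstrassCurve.toAffine
  ext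
  · exact map_zero _
  · show algebraMap (K w) QBar (3 * (1 - gen w) * emb (gen w) D) = _
    rw [map_mul, map_mul, map_sub, map_one, map_ofNat, h1, h2]
  · exact map_zero _
  · show algebraMap (K w) QBar (gen w ^ 4 * emb (gen w) D ^ 2) = _
    rw [map_mul, map_pow, map_pow, h1, h2]
  · exact map_zero _

/-- the points of equal curves -/
noncomputable def tr {W W' : Affine QBar} (h : W = W') : W.Point ≃+ W'.Point := by
  subst h
  exact AddEquiv.refl _

lemma tr_some {W W' : Affine QBar} (h : W = W') {a b : QBar} (hab : W.Nonsingular a b) :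
    tr h (.some a b hab) = .some a b (h ▸ hab) := by
  subst h
  rfl

lemma tr_act (h : WD w (em hw D)) (fx : ∀ σ : Gal w, Pool.Agent.R384.Fx w (em hw D)
    (Pool.Agent.R384.rh σ)) (σ : Gal w) (P : Pts w D) :
    tr (curve_eq hw) (act σ P) = Pool.Agent.R384.act h fx σ (tr (curve_eq hw) P) := by
  rcases P with _ | ⟨a, b, hab⟩
  · show tr (curve_eq hw) (act σ 0) = Pool.Agent.R384.act h fx σ (tr (curve_eq hw) 0)
    simp only [map_zero]
  · rw [tr_some (curve_eq hw) hab]
    exact tr_some (curve_eq hw) (a := σ.toAlgHom a) (b := σ.toAlgHom b)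
      ((Affine.baseChange_nonsingular (ED w D).toAffine σ.toAlgHom.injective ..).mpr hab)

lemma elliptic (hD : D ≠ 0) (hw : w ^ 2 = w - 2) : (ED w D).IsElliptic := by
  have hg := gen_sq.2 hw
  have hg0 : gen w ≠ 0 := by
    intro h
    rw [h] at hg
    norm_num at hg
  have hg1 : 1 - gen w ≠ 0 := by
    intro h
    have h1 : gen w = 1 := (sub_eq_zero.1 h).symm
    rw [h1] at hg
    norm_num at hg
  have hd : (emb (gen w) D : K w) ≠ 0 := by
    intro h
    have h1 := emb_eq hw D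
    rw [h] at h1
    exact hD (Pool.Agent.R384.em_inj hw h1.symm)
  rw [WeierstrassCurve.isElliptic_iff, isUnit_iff_ne_zero]
  have e : (ED w D).Δ = 16 * (gen w ^ 4 * emb (gen w) D ^ 2) ^ 2 *
      ((1 - gen w) ^ 8 * emb (gen w) D ^ 2) := by
    simp only [ED, curve, WeierstrassCurve.Δ, WeierstrassCurve.b₂, WeierstrassCurve.b₄,
      WeierstrassCurve.b₆, WeierstrassCurve.b₈]
    generalize emb (gen w) D = d at *
    generalize gen w = g at *
    have h2 : (1 - g) ^ 2 = -1 - g := by linear_combination hg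
    have h4 : (1 - g) ^ 4 = 3 * g - 1 := by
      have : (1 - g) ^ 4 = ((1 - g) ^ 2) ^ 2 := by ring
      rw [this, h2]
      linear_combination hg
    have h8 : (1 - g) ^ 8 = 3 * g - 17 := by
      have : (1 - g) ^ 8 = ((1 - g) ^ 4) ^ 2 := by ring
      rw [this, h4]
      linear_combination 9 * hg
    have g4 : g ^ 4 = 2 - 3 * g := by linear_combination (g ^ 2 + g - 1) * hg
    rw [h8]
    have e1 : 9 * (1 - g) ^ 2 - 4 * g ^ 4 = 3 * g - 17 := by
      rw [h2, g4]; ring
    rw [← e1]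
    ring
  rw [e]
  exact mul_ne_zero (mul_ne_zero (by norm_num) (pow_ne_zero _ (mul_ne_zero (pow_ne_zero _ hg0)
    (pow_ne_zero _ hd)))) (mul_ne_zero (pow_ne_zero _ hg1) (pow_ne_zero _ hd))

/-! ### The isomorphism -/

lemma gen_iso {F : Type} [Field F] [CharZero F] {g d : F} (hg : g ^ 2 = g - 2) :
    (⟨Units.mk0 (1 / 2 : F) (by norm_num), -((g + 2) * d / 4), -(1 / 2), (g + 2) * d / 8⟩ :
      VariableChange F) • (⟨1, -((3 * d + 1) / 4), 0, -2 * d ^ 2, -d ^ 3⟩ : WeierstrassCurve F) =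
      ⟨0, 3 * (1 - g) * (d - 2 * d * g), 0, g ^ 4 * (d - 2 * d * g) ^ 2, 0⟩ := by
  have hu : (((Units.mk0 (1 / 2 : F) (by norm_num))⁻¹ : Fˣ) : F) = 2 := by
    simp
  ext
  · simp only [variableChange_a₁, hu]
    norm_num
  · simp only [variableChange_a₂, hu]
    linear_combination (-6 * d) * hg
  · simp only [variableChange_a₃, hu]
    ring
  · simp only [variableChange_a₄, hu]
    linear_combination ((-4 * g ^ 4 + 7 * g ^ 2 + 7 * g - 4) * d ^ 2) * hg
  · simp only [variableChange_a₆, hu]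
    linear_combination ((-g - 10) * d ^ 3) * hg


lemma tw_iso (hw : w ^ 2 = w - 2) (D : OK) :
    ∃ C : VariableChange (K w), C • EK w D = ED w (tw D) := by
  have hg := gen_sq.2 hw
  have hemb : (emb (gen w) (tw D) : K w) = emb (gen w) D - 2 * emb (gen w) D * gen w := by
    unfold emb tw
    simp only [QuadraticAlgebra.re_neg, QuadraticAlgebra.im_neg, QuadraticAlgebra.re_mul,
      QuadraticAlgebra.im_mul]
    push_cast
    linear_combination (2 * (D.im : K w)) * hg
  refine ⟨_, Eq.trans (congrArg _ ?_) ((gen_iso (d := emb (gen w) D) hg).trans ?_)⟩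
  · unfold EK curveX
    congr 1
    ring
  · unfold ED curve
    rw [hemb]

/-! ### The arithmetic of the class -/

open Pool.Agent.T2h16.BK (er ri er_apply er_ri ri_er er_dvd er_sqf er_inj er_aR)
open Pool.Agent.T2h16.KD (DC PD Cl Gd)
open Pool.Agent.Y698 (RR cX cY nR aR fR)
open NumberField (RingOfIntegers)

lemma er_re (r : RR) : (er r).re = cX r := by
  rw [er_apply]
  simp [Pool.Agent.R384.om]

lemma er_im (r : RR) : (er r).im = cY r := by
  rw [er_apply]
  simp [Pool.Agent.R384.om]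

lemma nrm_er (r : RR) : nrm (er r) = nR r := by
  unfold nrm Pool.Agent.Y698.nR
  rw [er_re, er_im]

lemma sqf_er {r : RR} : Squarefree (er r) ↔ Squarefree r := by
  constructor
  · intro h x hx
    have h1 := h (er x) (by rw [← map_mul]; exact er_dvd.2 hx)
    have h2 := h1.map ri
    rwa [ri_er] at h2
  · exact er_sqf

lemma class_er {r : RR} : InClass (er r) ↔ DC r := by
  have h1 : (4 : OK) ∣ er r - 1 ↔ (4 : RR) ∣ r - 1 := by
    rw [← er_dvd, map_sub, map_one, map_ofNat]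
  unfold InClass Pool.Agent.T2h16.KD.DC
  rw [nrm_er, sqf_er, h1, Pool.Agent.T2h16.KE.four_iff, Pool.Agent.T2h16.KE.cop_iff]
  tauto

lemma nrm_eq (z : OK) : nrm z = Pool.Agent.R384.nn z := rfl

lemma nrm_one : nrm 1 = 1 := by
  unfold nrm
  rw [QuadraticAlgebra.re_one, QuadraticAlgebra.im_one]
  norm_num

lemma nrm_mul (z t : OK) : nrm (z * t) = nrm z * nrm t := Pool.Agent.R384.nn_mul z t

lemma InClass.ne {D : OK} (h : InClass D) : D ≠ 0 := by
  rintro rfl
  exact h.2.2 (by simp [nrm])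

lemma finrank_w (hw : w ^ 2 = w - 2) : Module.finrank ℚ (K w) = 2 := by
  have hint : IsIntegral ℚ w := Algebra.IsIntegral.isIntegral w
  rw [IntermediateField.adjoin.finrank hint]
  apply le_antisymm
  · have h1 : minpoly ℚ w ∣ (Polynomial.X ^ 2 - Polynomial.X + 2 : Polynomial ℚ) := by
      apply minpoly.dvd
      simp only [map_add, map_sub, map_pow, Polynomial.aeval_X, map_ofNat]
      linear_combination hw
    have h2 : (Polynomial.X ^ 2 - Polynomial.X + 2 : Polynomial ℚ).natDegree = 2 := by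
      compute_degree!
    rw [← h2]
    refine Polynomial.natDegree_le_of_dvd h1 ?_
    intro h3
    rw [h3] at h2
    simp at h2
  · rw [minpoly.two_le_natDegree_iff hint]
    rintro ⟨q, hq⟩
    rw [← hq, ← map_pow] at hw
    have h3 : q ^ 2 = q - 2 := by
      apply (algebraMap ℚ QBar).injective
      rw [hw, map_sub, map_ofNat]
    nlinarith [sq_nonneg (2 * q - 1)]

lemma delta_sq (hw : w ^ 2 = w - 2) : (2 * gen w - 1 : K w) ^ 2 = -7 := by
  have hg := gen_sq.2 hw
  linear_combination 4 * hg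

/-- the identification of the ring of integers -/
lemma exists_j (hw : w ^ 2 = w - 2) : ∃ j : RR ≃+* NumberField.RingOfIntegers (K w),
    ∀ r : RR, ((j r : NumberField.RingOfIntegers (K w)) : K w) = emb (gen w) (er r) := by
  obtain ⟨⟨j, hj, -⟩, -⟩ := Pool.Agent.T2h16.KE.t_JEX (K w) (2 * gen w - 1) (delta_sq hw) (finrank_w hw)
  refine ⟨j, fun r => ?_⟩
  have h1 : ((j aR : NumberField.RingOfIntegers (K w)) : K w) = gen w := by
    unfold Pool.Agent.Y698.fR at hj
    rw [map_sub, map_mul, map_ofNat, map_one] at hj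
    simp only [map_sub, map_mul, map_one, map_ofNat] at hj
    have h2 : (2 : K w) ≠ 0 := two_ne_zero
    apply mul_left_cancel₀ h2
    linear_combination hj
  rw [← Pool.Agent.T2h16.KE.Lc.ev_j, Pool.Agent.Y698.ev_apply, h1]
  unfold emb
  rw [er_re, er_im]

/-- the criterion -/
lemma rank_iff (hw : w ^ 2 = w - 2) {r : RR} (hr : DC r) :
    RankZeroShaTwo w (er r) ↔ Gd (PD r) := by
  obtain ⟨j, hj⟩ := exists_j hw
  obtain ⟨t, rfl, h1, h2⟩ := Pool.Agent.T2h16.KE.DC_split hr
  rw [← Pool.Agent.T2h16.KE.tri_iff Pool.Agent.T2h16.KE.inpK j h1 h2]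
  have hE : EK w (er (1 + 4 * t)) =
      Pool.Agent.Y698.EX (K w) ((j t : NumberField.RingOfIntegers (K w)) : K w) := by
    rw [← Pool.Agent.T2h16.KE.curve_eq j t, hj]
    rfl
  unfold RankZeroShaTwo ShaTwoZero Pool.Agent.T2h16.KE.TriK
  rw [hE]
  constructor
  · rintro ⟨g1, g2⟩
    exact ⟨g1, Pool.Agent.T2h16.KE.pow_two_zero fun x hx => g2 x (by rw [two_nsmul]; exact hx)⟩
  · rintro ⟨g1, g2⟩
    exact ⟨g1, fun x hx => g2 1 x (by rw [pow_one]; exact hx)⟩

/-- the data of a good element -/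
lemma good_data (hw : w ^ 2 = w - 2) {D : OK} (hD : InClass D) (hR : RankZeroShaTwo w D) :
    ∃ (S : Finset RR) (t : RR), Cl S ∧ ∏ π ∈ S, π = 1 + 4 * t ∧ Gd S ∧ D = er (1 + 4 * t) := by
  obtain ⟨j, -⟩ := exists_j hw
  rw [← er_ri D] at hD hR
  have hD' := class_er.1 hD
  have hG := (rank_iff hw hD').1 hR
  obtain ⟨t, ht, h1, h2⟩ := Pool.Agent.T2h16.KE.DC_split hD'
  obtain ⟨hcl, hprod, -⟩ := Pool.Agent.T2h16.KE.t_CRIT (K w) j t h1 h2
  rw [ht] at hG
  exact ⟨PD (1 + 4 * t), t, hcl, hprod, hG, by rw [← ht, er_ri]⟩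

/-- the converse -/
lemma good_of_data (hw : w ^ 2 = w - 2) {S : Finset RR} {t : RR} (hcl : Cl S)
    (hp : ∏ π ∈ S, π = 1 + 4 * t) (hG : Gd S) :
    InClass (er (1 + 4 * t)) ∧ RankZeroShaTwo w (er (1 + 4 * t)) := by
  obtain ⟨h1, h2⟩ := Pool.Agent.T2h16.KD.PS_prod hcl.1
  rw [hp] at h1 h2
  have hDC : DC (1 + 4 * t) := by
    have h3 := (Pool.Agent.T2h16.KE.four_iff (1 + 4 * t)).1 ⟨t, by ring⟩
    exact ⟨h1.sqf, h3.1, h3.2, h1.prm.cop⟩
  refine ⟨class_er.2 hDC, (rank_iff hw hDC).2 ?_⟩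
  rw [h2]
  exact hG

lemma tw_ne {D : OK} (hD : D ≠ 0) : tw D ≠ 0 := by
  unfold tw
  exact neg_ne_zero.2 (mul_ne_zero Pool.Agent.R384.prime_s7.ne_zero hD)

lemma tw_eq (D : OK) : tw D = -(Pool.Agent.R384.s7 * D) := rfl

lemma galL_eq {n : ℕ} (s : Fin n → QBar) : GalL w s = Pool.Agent.R384.fixs s Finset.univ := by
  ext σ
  unfold GalL
  rw [IntermediateField.mem_fixingSubgroup_iff]
  constructor
  · intro h i _
    exact h (s i) (IntermediateField.subset_adjoin _ _ ⟨i, rfl⟩)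
  · intro h x hx
    have h1 : IntermediateField.adjoin (K w) (Set.range s) ≤
        IntermediateField.fixedField (Pool.Agent.R384.fixs s Finset.univ) := by
      rw [IntermediateField.adjoin_le_iff]
      rintro _ ⟨i, rfl⟩
      rw [SetLike.mem_coe, IntermediateField.mem_fixedField_iff]
      intro f hf
      exact hf i (Finset.mem_univ i)
    exact (IntermediateField.mem_fixedField_iff _ x).1 (h1 hx) σ h

/-- the transfer -/
lemma selmer_of {v : Pool.Agent.R384.OO} {χ : Chr w} {H : Sub w}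
    (h : Pool.Agent.R384.VanOn hw v χ H) {v' : QBar} (hv : Pool.Agent.R384.em hw v = v') :
    SelmerZero v' H χ := by
  intro c hc hs
  obtain ⟨y, hy⟩ := h c ⟨hc.cont, hc.mul⟩ (fun p _ ι hp => hs.odd p ι hp) (fun ι hι => by
    rw [hv] at hι
    exact hs.two ι hι)
  exact ⟨y, fun σ _ h => hy σ h⟩

/-- the vanishing -/
lemma all_of (hw : w ^ 2 = w - 2) {M : OK} {n : ℕ} {d : Fin n → OK} (hG : Good w M d) :
    AllWeights w M d := by
  have hM0 : M ≠ 0 := by
    obtain ⟨D, k, hk, hD, -, he⟩ := hG ∅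
    rw [Finset.prod_empty, mul_one] at he
    rw [he]
    exact mul_ne_zero hD.ne (pow_ne_zero 2 hk)
  have hd0 : ∀ i, d i ≠ 0 := by
    intro i
    obtain ⟨D, k, hk, hD, -, he⟩ := hG {i}
    rw [Finset.prod_singleton] at he
    exact right_ne_zero_of_mul (he ▸ mul_ne_zero hD.ne (pow_ne_zero 2 hk))
  have hD := tw_ne hM0
  refine ⟨tw_iso hw M, elliptic hD hw, ?_⟩
  have h : Pool.Agent.R384.WD w (Pool.Agent.R384.em hw (tw M)) := ⟨hw, Pool.Agent.R384.em_ne hw hD⟩
  obtain ⟨r, hr⟩ : ∃ r : QBar, r ^ 2 = Pool.Agent.R384.em hw (tw M) :=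
    IsAlgClosed.exists_pow_nat_eq _ (by norm_num)
  obtain ⟨I, hI⟩ : ∃ I : QBar, I ^ 2 = -1 := IsAlgClosed.exists_pow_nat_eq _ (by norm_num)
  have fx : ∀ σ : Gal w, Pool.Agent.R384.Fx w (Pool.Agent.R384.em hw (tw M))
      (Pool.Agent.R384.rh σ) := fun σ =>
    ⟨Pool.Agent.Y715.Gi.gk_fix σ, Pool.Agent.R384.gk_em hw σ (tw M)⟩
  obtain ⟨κ, κ', x, y, u, u', kd, k8, hx, hy, ax, ay⟩ := Pool.Agent.T2h16.BK.t_KD8 Pool.Agent.T2h16.BK.t_M8 w hw (tw M) hD h r I hr hI fx
  have td := Pool.Agent.R384.td h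
  set T := tr (curve_eq hw (D := tw M)) with hT
  have hor : ∀ {p : ℕ} [Fact p.Prime] (ι : QBar →ₐ[ℚ] PadicAlgCl p) (s : QBar) (z : OK),
      s ^ 2 = Pool.Agent.R384.em hw z → ∀ σ : Gal w, σ s = s ∨ σ s = -s := fun ι s z hs σ =>
    Pool.Agent.R384.rt_or hw hs σ
  have hIr : (I * r) ^ 2 = Pool.Agent.R384.em hw (-tw M) := by rw [mul_pow, hI, hr, map_neg]; ring
  refine ⟨κ, κ', ⟨⟨fun n => T.symm (y n), fun n => T.symm (x n), ⟨?_, ?_, ?_, ?_⟩,
    ⟨Units.continuous_val.comp kd.cont, fun σ => ?_⟩,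
    ⟨Units.continuous_val.comp kd.cont', fun σ => ?_⟩⟩, ?_, ?_⟩, ?_⟩
  · show T.symm (y 0) = 0 ∧ T.symm (x 0) = 0
    rw [hx.zero, hy.zero, map_zero]
    exact ⟨rfl, rfl⟩
  · intro n
    show T.symm (y (n + 1)) + T.symm (y (n + 1)) = T.symm (y n) ∧
      T.symm (x (n + 1)) + T.symm (x (n + 1)) = T.symm (x n)
    rw [← map_add, ← map_add, hx.dbl, hy.dbl]
    exact ⟨rfl, rfl⟩
  · intro n P hP
    have h1 : (2 ^ n : ℤ) • T P = 0 := by rw [← map_zsmul, hP, map_zero]
    obtain ⟨a, b, hab⟩ := Pool.Agent.R384.Tow.basis td hx hy h1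
    refine ⟨b, a, ?_⟩
    apply T.injective
    show T P = T (b • T.symm (y n) + a • T.symm (x n))
    rw [map_add, map_zsmul, map_zsmul, T.apply_symm_apply, T.apply_symm_apply, hab, add_comm]
  · intro n a b hab
    have h1 : T (a • T.symm (y n) + b • T.symm (x n)) = 0 := by
      show T ((fun n => a • T.symm (y n) + b • T.symm (x n)) n) = 0
      rw [show (fun n => a • T.symm (y n) + b • T.symm (x n)) n = 0 from hab, map_zero]
    rw [map_add, map_zsmul, map_zsmul, T.apply_symm_apply, T.apply_symm_apply, add_comm] at h1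
    exact (Pool.Agent.R384.Tow.uniq td hx hy h1).symm
  · intro n k hk
    show act σ (T.symm (y n)) = k • T.symm (y n)
    apply T.injective
    rw [hT, tr_act hw h fx σ, ← hT, T.apply_symm_apply, map_zsmul, T.apply_symm_apply]
    exact ay σ n k hk
  · intro n k hk
    show act σ (T.symm (x n)) = k • T.symm (x n)
    apply T.injective
    rw [hT, tr_act hw h fx σ, ← hT, T.apply_symm_apply, map_zsmul, T.apply_symm_apply]
    exact ax σ n k hk
  · rintro p _ ι hn σ ⟨τ, hτ, hin⟩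
    have h1 := kd.inert p ι τ σ hτ hin hn
    unfold zv
    rcases hor ι _ _ hIr σ with h2 | h2
    · rw [h1.1 h2, Units.val_one, one_pow]
    · rw [h1.2 h2, Units.val_neg, Units.val_one, neg_one_sq]
  · rintro p _ ι hn σ ⟨τ, hτ, hin⟩
    have h1 := kd.inert' p ι τ σ hτ hin hn
    unfold zv
    rcases hor ι _ _ hr σ with h2 | h2
    · rw [h1.1 h2, Units.val_one, one_pow]
    · rw [h1.2 h2, Units.val_neg, Units.val_one, neg_one_sq]
  · intro s hs k _ hk
    have hom : Pool.Agent.R384.em hw Pool.Agent.R384.om = w := Pool.Agent.R384.em_om hw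
    have hom' : Pool.Agent.R384.em hw (1 - Pool.Agent.R384.om) = 1 - w := by
      rw [map_sub, map_one, hom]
    have hk' : Even (1 - k) := by
      rw [Int.even_sub]
      simp [Int.not_even_iff_odd.2 hk]
    have hgood : ∀ T : Finset (Fin n), ∃ (S : Finset RR) (t : RR) (z : OK), Cl S ∧
        ∏ π ∈ S, π = 1 + 4 * t ∧ Gd S ∧ z ≠ 0 ∧
        tw M * ∏ i ∈ T, d i = -(Pool.Agent.R384.s7 * er (1 + 4 * t)) * z ^ 2 := by
      intro T
      obtain ⟨D, k, hk0, hA, hR, he⟩ := hG T
      obtain ⟨S, t, h1, h2, h3, rfl⟩ := good_data hw hA hR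
      refine ⟨S, t, k, h1, h2, h3, hk0, ?_⟩
      rw [tw_eq]
      linear_combination (-Pool.Agent.R384.s7) * he
    rw [galL_eq]
    exact ⟨selmer_of hw (Pool.Agent.T2h16.BK.mq8 w hw κ κ' (tw M) r I u u' n s d hs kd k8 hD hd0 hgood k _ _
        (Or.inr ⟨hk, rfl, rfl⟩)) hom',
      selmer_of hw (Pool.Agent.T2h16.BK.mq8 w hw κ κ' (tw M) r I u u' n s d hs kd k8 hD hd0 hgood (1 - k) _ _
        (Or.inl ⟨hk', rfl, rfl⟩)) hom⟩

/-! ### The proportion -/

lemma card_er (X : ℕ) (P : OK → Prop) (Q : RR → Prop) (h : ∀ r, DC r → (P (er r) ↔ Q r)) :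
    {D : OK | nrm D ≤ X ∧ InClass D ∧ P D}.ncard =
      {r : RR | Pool.Agent.T2h16.KD.nrm r ≤ X ∧ DC r ∧ Q r}.ncard := by
  rw [← Set.ncard_image_of_injective {r : RR | Pool.Agent.T2h16.KD.nrm r ≤ X ∧ DC r ∧ Q r} er_inj]
  congr 1
  ext D
  simp only [Set.mem_image, Set.mem_ofPred_eq]
  have hn : ∀ r : RR, nrm (er r) ≤ (X : ℤ) ↔ Pool.Agent.T2h16.KD.nrm r ≤ X := by
    intro r
    rw [nrm_er, ← Pool.Agent.T2h16.KD.nrm_cast]
    exact_mod_cast Iff.rfl
  constructor
  · rintro ⟨h1, h2, h3⟩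
    rw [← er_ri D] at h1 h2 h3
    have h4 := class_er.1 h2
    exact ⟨ri D, ⟨(hn _).1 h1, h4, (h _ h4).1 h3⟩, er_ri D⟩
  · rintro ⟨r, ⟨h1, h2, h3⟩, rfl⟩
    exact ⟨(hn r).2 h1, class_er.2 h2, (h r h2).2 h3⟩

lemma good_one (w : QBar) {D : OK} (hD : InClass D) (hR : RankZeroShaTwo w D) (d : Fin 0 → OK) :
    Good w D d := by
  intro T
  refine ⟨D, 1, one_ne_zero, hD, hR, ?_⟩
  rw [Finset.eq_empty_of_isEmpty T, Finset.prod_empty]
  ring

lemma inClass_one : InClass (1 : OK) := ⟨squarefree_one, ⟨0, by ring⟩, by rw [nrm_one]; norm_num⟩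

lemma rank_one (hw : w ^ 2 = w - 2) : RankZeroShaTwo w 1 := by
  have h1 := good_of_data hw (S := ∅) (t := 0) ⟨fun π hπ => absurd hπ (Finset.notMem_empty π), by simp⟩
    (by simp) (fun v _ π hπ => absurd hπ (Finset.notMem_empty π))
  rw [mul_zero, add_zero, map_one] at h1
  exact h1.2

lemma good_pair (hw : w ^ 2 = w - 2) {D : OK} (hD : InClass D) (hR : RankZeroShaTwo w D) :
    Good w 1 ![D] := by
  intro T
  rcases T.eq_empty_or_nonempty with rfl | hT
  · exact ⟨1, 1, one_ne_zero, inClass_one, rank_one hw, by rw [Finset.prod_empty]; ring⟩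
  · obtain ⟨i, hi⟩ := hT
    have h1 : T = {0} := by
      ext j
      rw [Subsingleton.elim j i, Finset.mem_singleton, Subsingleton.elim i 0]
      rw [Subsingleton.elim i 0] at hi
      exact ⟨fun _ => rfl, fun _ => hi⟩
    refine ⟨D, 1, one_ne_zero, hD, hR, ?_⟩
    rw [h1, Finset.prod_singleton, Matrix.cons_val_zero]
    ring

lemma prop_lim (hw : w ^ 2 = w - 2) :
    Tendsto (prop fun D => RankZeroShaTwo w D ∧ AllWeights w D (n := 0) ![] ∧
      AllWeights w 1 ![D]) atTop (𝓝 η) := by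
  refine Pool.Agent.T2h16.KD.den.congr fun X => ?_
  unfold prop
  rw [card_er X _ (fun r => Gd (PD r)) fun r hr => ?_]
  · congr 2
    have := card_er X (fun _ => True) (fun _ => True) fun _ _ => Iff.rfl
    simpa using this.symm
  · rw [← rank_iff hw hr]
    exact ⟨fun h => h.1, fun h => ⟨h, all_of hw (good_one w (class_er.2 hr) h _),
      all_of hw (good_pair hw (class_er.2 hr) h)⟩⟩

/-! ### The towers -/

lemma tower_one (hw : w ^ 2 = w - 2) : Tower w 1 (n := 0) ![] := by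
  refine ⟨inClass_one, fun i => i.elim0, ?_, good_one w inClass_one (rank_one hw) _⟩
  intro T hT
  obtain ⟨i, -⟩ := hT
  exact i.elim0

lemma prime_class {p : ℕ} (h : Pool.Agent.T2h16.BK.Ip p) : InClass ((p : ℕ) : OK) ∧
    Prime ((p : ℕ) : OK) := by
  have h1 := h.po
  have e : er ((p : ℕ) : RR) = ((p : ℕ) : OK) := map_natCast er p
  have h2 : Prime ((p : ℕ) : OK) := by
    rw [← e]
    exact Pool.Agent.T2h16.BK.er_prime.2 h1.pr
  refine ⟨?_, h2⟩
  rw [← e, class_er]
  have h3 := Pool.Agent.Y698.cXY_nat p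
  refine ⟨h1.pr.squarefree, ?_, ?_, h1.cop⟩
  · rw [h3.1]
    have := h.m4
    omega
  · rw [h3.2]
    rfl

lemma dvd_nrm (z : OK) : z ∣ ((nrm z : ℤ) : OK) := ⟨Pool.Agent.R384.cj z,
  (Pool.Agent.R384.mul_cj z).symm⟩

lemma ip_of {M : OK} {n : ℕ} {d : Fin n → OK} {p : ℕ} (hp : p ∈ primes M d) :
    Pool.Agent.T2h16.BK.Ip p := by
  obtain ⟨h1, h2, c, hc⟩ := hp
  refine ⟨h1, ?_, h2⟩
  have : (p : ℤ) = 1 + 4 * (nrm (M * ∏ i, d i) * c) := by linear_combination hc
  omega

lemma dvd_of {M : OK} {n : ℕ} {d : Fin n → OK} {p : ℕ} (hp : p ∈ primes M d) :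
    M * ∏ i, d i ∣ ((p : ℕ) : OK) - 1 := by
  obtain ⟨-, -, c, hc⟩ := hp
  refine (dvd_nrm _).trans ⟨((4 * c : ℤ) : OK), ?_⟩
  have h1 := congrArg (fun z : ℤ => (z : OK)) hc
  push_cast at h1 ⊢
  linear_combination h1

lemma ext_good (hw : w ^ 2 = w - 2) {M : OK} {n : ℕ} {d : Fin n → OK} (hG : Good w M d) {p : ℕ}
    (hp : p ∈ primes M d) : Good w M (add d ((p : ℕ) : OK)) := by
  have hip := ip_of hp
  have hdv := dvd_of hp
  intro T
  set T' : Finset (Fin n) := Finset.univ.filter fun i => Fin.castSucc i ∈ T with hT'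
  obtain ⟨D, k, hk, hD, hR, he⟩ := hG T'
  have hprod : ∏ i ∈ T, add d ((p : ℕ) : OK) i =
      (∏ i ∈ T', d i) * (if Fin.last n ∈ T then ((p : ℕ) : OK) else 1) := by
    rw [← Finset.prod_ite_mem_eq T, Fin.prod_univ_castSucc, hT', Finset.prod_filter]
    simp [add]
  rw [hprod, ← mul_assoc, he]
  by_cases hl : Fin.last n ∈ T
  · rw [if_pos hl]
    obtain ⟨S, t, h1, h2, h3, rfl⟩ := good_data hw hD hR
    have hS : ∀ π ∈ S, π ∣ ((p : ℕ) : RR) - 1 := by
      intro π hπ
      rw [← er_dvd, map_sub, map_natCast, map_one]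
      refine Dvd.dvd.trans ?_ hdv
      have h4 : er π ∣ M * ∏ i ∈ T', d i := by
        rw [he]
        refine Dvd.dvd.mul_right ?_ _
        rw [er_dvd, ← h2]
        exact Finset.dvd_prod_of_mem _ hπ
      refine h4.trans (mul_dvd_mul_left _ ?_)
      exact Finset.prod_dvd_prod_of_subset _ _ _ (Finset.subset_univ _)
    obtain ⟨g1, g2, g3⟩ := hip.step h1 h3 hS
    obtain ⟨q, hq⟩ : ∃ q : ℕ, p = 1 + 4 * q := ⟨p / 4, by have := hip.m4; omega⟩
    have hprod' : ∏ π ∈ insert ((p : ℕ) : RR) S, π = 1 + 4 * ((q : RR) + (p : RR) * t) := by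
      rw [Finset.prod_insert g1, h2, hq]
      push_cast
      ring
    obtain ⟨g4, g5⟩ := good_of_data hw g2 hprod' g3
    refine ⟨_, k, hk, g4, g5, ?_⟩
    have e : er (1 + 4 * ((q : RR) + (p : RR) * t)) = ((p : ℕ) : OK) * er (1 + 4 * t) := by
      rw [← map_natCast er p, ← map_mul]
      congr 1
      rw [hq]
      push_cast
      ring
    rw [e]
    ring
  · rw [if_neg hl]
    exact ⟨D, k, hk, hD, hR, by ring⟩

lemma ext_tower (hw : w ^ 2 = w - 2) {M : OK} {n : ℕ} {d : Fin n → OK} (hG : Tower w M d) {p : ℕ}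
    (hp : p ∈ primes M d) : Tower w M (add d ((p : ℕ) : OK)) := by
  obtain ⟨h1, h2, h3, h4⟩ := hG
  obtain ⟨g1, g2⟩ := prime_class (ip_of hp)
  refine ⟨h1, ?_, ?_, ext_good hw h4 hp⟩
  · intro i
    refine Fin.lastCases ?_ (fun i => ?_) i
    · simpa [add] using g1
    · simpa [add] using h2 i
  · rintro T hT ⟨x, hx⟩
    set T' : Finset (Fin n) := Finset.univ.filter fun i => Fin.castSucc i ∈ T with hT'
    have hprod : ∏ i ∈ T, add d ((p : ℕ) : OK) i =
        (∏ i ∈ T', d i) * (if Fin.last n ∈ T then ((p : ℕ) : OK) else 1) := by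
      rw [← Finset.prod_ite_mem_eq T, Fin.prod_univ_castSucc, hT', Finset.prod_filter]
      simp [add]
    rw [hprod] at hx
    by_cases hl : Fin.last n ∈ T
    · rw [if_pos hl] at hx
      have hx1 : ((p : ℕ) : OK) ∣ x := by
        have : ((p : ℕ) : OK) ∣ x * x := ⟨_, by rw [← hx, mul_comm]⟩
        exact (g2.dvd_or_dvd this).elim id id
      obtain ⟨y, rfl⟩ := hx1
      have h5 : ∏ i ∈ T', d i = ((p : ℕ) : OK) * (y * y) := by
        apply mul_left_cancel₀ g2.ne_zero
        linear_combination hx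
      have h6 : ((p : ℕ) : OK) ∣ ((p : ℕ) : OK) - 1 := by
        refine Dvd.dvd.trans ?_ (dvd_of hp)
        refine Dvd.dvd.trans ⟨_, h5⟩ (Dvd.dvd.mul_left ?_ _)
        exact Finset.prod_dvd_prod_of_subset _ _ _ (Finset.subset_univ _)
      have h7 : ((p : ℕ) : OK) ∣ 1 := by
        have e : (1 : OK) = ((p : ℕ) : OK) - (((p : ℕ) : OK) - 1) := by ring
        rw [e]
        exact dvd_sub dvd_rfl h6
      exact g2.not_isUnit (isUnit_of_dvd_one h7)
    · rw [if_neg hl, mul_one] at hx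
      refine h3 T' ?_ ⟨x, hx⟩
      obtain ⟨i, hi⟩ := hT
      revert hi
      refine Fin.lastCases (fun hi => absurd hi hl) (fun i hi => ?_) i
      exact ⟨i, by rw [hT']; simp [hi]⟩

lemma nrm_prod {n : ℕ} (d : Fin n → OK) : nrm (∏ i, d i) = ∏ i, nrm (d i) := by
  induction n with
  | zero => rw [Fin.prod_univ_zero, Fin.prod_univ_zero, nrm_one]
  | succ n ih => rw [Fin.prod_univ_succ, nrm_mul, ih, Fin.prod_univ_succ]

/-- there are infinitely many primes -/
lemma primes_inf {M : OK} {n : ℕ} {d : Fin n → OK} (hM : InClass M) (hd : ∀ i, InClass (d i)) :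
    (primes M d).Infinite := by
  set N : ℕ := (nrm (M * ∏ i, d i)).natAbs with hN
  have hne : nrm (M * ∏ i, d i) ≠ 0 := by
    rw [nrm_eq, Ne, Pool.Agent.R384.nn_zero_iff]
    exact mul_ne_zero hM.ne (Finset.prod_ne_zero_iff.2 fun i _ => (hd i).ne)
  have hN0 : N ≠ 0 := Int.natAbs_ne_zero.2 hne
  have h7 : ¬ 7 ∣ N := by
    intro h
    have h1 : (7 : ℤ) ∣ nrm (M * ∏ i, d i) := by
      rw [← Int.dvd_natAbs]
      exact_mod_cast h
    have hp7 : Prime (7 : ℤ) := by
      have : Nat.Prime 7 := by norm_num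
      exact_mod_cast Nat.prime_iff_prime_int.1 this
    rw [nrm_mul, nrm_prod] at h1
    rcases hp7.dvd_or_dvd h1 with h2 | h2
    · exact hM.2.2 h2
    · obtain ⟨i, -, h3⟩ := (hp7.dvd_finsetProd_iff _).1 h2
      exact (hd i).2.2 h3
  have hcop : Nat.Coprime (4 * N) 7 := by
    rw [Nat.coprime_comm, (by norm_num : Nat.Prime 7).coprime_iff_not_dvd]
    intro h
    rcases (by norm_num : Nat.Prime 7).dvd_mul.1 h with h2 | h2
    · norm_num at h2
    · exact h7 h2
  obtain ⟨a, ha1, ha2⟩ := Nat.chineseRemainder hcop 1 3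
  have hu : a.Coprime (4 * N * 7) := by
    rw [Nat.coprime_mul_iff_right]
    constructor
    · rw [Nat.Coprime, ha1.gcd_eq]
      simp
    · rw [Nat.Coprime, ha2.gcd_eq]
      rfl
  have hinf := Nat.infinite_setOfPred_prime_and_modEq (q := 4 * N * 7) (a := a) (by positivity) hu
  refine hinf.mono ?_
  rintro p ⟨hp, h1⟩
  have h2 : p ≡ 1 [MOD 4 * N] := (Nat.ModEq.of_mul_right 7 h1).trans ha1
  have h3 : p ≡ 3 [MOD 7] := (Nat.ModEq.of_mul_left (4 * N) h1).trans ha2
  refine ⟨hp, Or.inl h3, ?_⟩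
  have h4 : ((4 * N : ℕ) : ℤ) ∣ (p : ℤ) - 1 := by
    have := (Nat.modEq_iff_dvd.1 h2.symm)
    exact_mod_cast this
  have h5 : (4 * nrm (M * ∏ i, d i) : ℤ) ∣ ((4 * N : ℕ) : ℤ) := by
    rw [Nat.cast_mul, hN, Int.natCast_natAbs]
    exact mul_dvd_mul_left _ ((dvd_abs _ _).2 dvd_rfl)
  exact h5.trans h4

end proof

/-- **The Bloch–Kato Selmer groups of all odd weights for the twists of `X_0(49)` over
`K = ℚ(√-7)` and its multiquadratic extensions.** -/
theorem result (w : QBar) (hw : w ^ 2 = w - 2) :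
    (∀ (n : ℕ) (M : OK) (d : Fin n → OK), Good w M d → AllWeights w M d) ∧
    Tendsto (prop fun D => RankZeroShaTwo w D ∧ AllWeights w D (n := 0) ![] ∧
      AllWeights w 1 ![D]) atTop (𝓝 η) ∧
    0.2887 < η ∧ η < 0.2888 ∧
    Tower w 1 (n := 0) ![] ∧
    ∀ (n : ℕ) (M : OK) (d : Fin n → OK), Tower w M d →
      (primes M d).Infinite ∧ ∀ p ∈ primes M d, Tower w M (add d ((p : ℕ) : OK)) :=
  ⟨fun _ _ _ h => all_of hw h, prop_lim hw, Pool.Agent.T2h16.KD.t_ETA.2.2.2.1,
    Pool.Agent.T2h16.KD.t_ETA.2.2.2.2, tower_one hw,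
    fun _ _ _ h => ⟨primes_inf h.1 h.2.1, fun _ hp => ext_tower hw h hp⟩⟩

end Pool.Agent.Results.MP_009fd8_ag.AllOddWeightsX49
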