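import Pool.Agent.T3h73.TK.Tower

/-!
# Bloch-Kato Selmer groups of at least 42.5 percent of ALL twists of `y² + y = x³` of order `3 ^ k`

`K = ℚ(w)`, `E : y² + y = x³`, `k ≥ 2`. We consider ALL the products `χ` of characters `λ_π` of exact
order `3 ^ k` modulo `π`, where `π` runs through a finite set `P` of Eisenstein primes `1` modulo `3`
of norm `1` modulo `3 ^ (k + 1)`, ordered by the norm of the conductor. For each `χ` let `A / K` be the
abelian variety of dimension `3 ^ (k - 1)`, the twist of `E ⊗ ℤ[ζ]` by `χ` (`ζ` of order `3 ^ k`).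

Among all these `χ` a proportion of at least `(2 / 3) ∏_{i ≥ 1} (1 + 3 ^ (-i))⁻¹ = 0.4260...` (lower
Dirichlet density) has the property: `H¹_f(K, V_3 A) = 0` and `A(K)` has order `3`, for `χ` and for all its
powers `χ ^ (3 ^ j)` of order at least `9` with their `A`. So the Abel-Jacobi map for `h¹(A)(1)` and `p = 3`
is the bijection of `0` and `0`.

The proof. For one `χ` the starting library (`MP_dfae13_nt/ThreePartTwists`, `Pool.Agent.Y715.T`) gives
the property (in terms of `Ш(A / K)`) if the Laplacian over `𝔽₃` of the graph of the cubic residue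
symbols of the elements of `P`, weighted with the exponents of `χ`, has the constants as its kernel,
and if a product of the elements of `P` is not `1` modulo `9`. The distribution over the family is
project TK (`Pool/Agent/T3h73/TK`), see `MP_a43263_nt/OrderThreePowerTwists`. The step from
`Ш(A / K)` to `V_3 A` is `Pool/Agent/T3h73/TK/BK.lean`.
-/

set_option autoImplicit false

namespace Pool.Agent.Results.MP_009fd8_ag.OrderThreePowerBlochKato

open Pool.Agent.T3h73.TK.Def2 Pool.Agent.T3h73.TK.Def3

/-- **Main theorem.** -/
theorem result (k : ℕ) (hk : 2 ≤ k) :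
    -- the sums over the family converge for `s > 1`, and tend to infinity for `s → 1`
    Convergent k ∧ Divergent k ∧
    -- the constant
    0.425 < 2 / 3 * kappa ∧
    -- the lower density
    ∀ ε : ℝ, 0 < ε → AtLeast k (ZeroTower k) (2 / 3 * kappa - ε) :=
  ⟨Pool.Agent.T3h73.TK.BKFin.convergent k hk, Pool.Agent.T3h73.TK.BKFin.divergent k hk,
    Pool.Agent.T3h73.TK.Num.num, Pool.Agent.T3h73.TK.Tower.atLeast_zeroTower k hk⟩

end Pool.Agent.Results.MP_009fd8_ag.OrderThreePowerBlochKato
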