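import Pool.Agent.T3h73.TG.BKFin

/-!
# Bloch-Kato Selmer groups of at least 20.97 percent of ALL twists of `y² = x³ - x` of order `2 ^ k`

`K = ℚ(i)`, `E : y² = x³ - x`, `k ≥ 3`. We consider ALL the products `χ` of characters `λ_π` of exact
order `2 ^ k` modulo `π`, where `π` runs through a finite set `P` of Gaussian primes `1` modulo `4`
of norm `1` modulo `2 ^ (k + 2)`, ordered by the norm of the conductor. For each `χ` let `A / K` be the
abelian variety of dimension `2 ^ (k - 2)`, the twist of `E ⊗ ℤ[ζ]` by `χ` (`ζ` of order `2 ^ k`).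

Among all these `χ` a proportion of at least `(1 / 2) ∏_{i ≥ 1} (1 + 2 ^ (-i))⁻¹ = 0.2097...` (lower
Dirichlet density) has the property: `H¹_f(K, V_2 A) = 0` and `A(K)` has order `2`, for `χ` and for ALL
the products of characters of exact order `2 ^ l`, `3 ≤ l ≤ k`, modulo the same `π`, with their `A`
(also for `l > k` if all the norms are `1` modulo `2 ^ (l + 2)`). So the Abel-Jacobi map for
`h¹(A)(1)` and `p = 2` is the bijection of `0` and `0`.

The proof. For one `χ` the starting library (`MP_dfae13_nt/TwoPartTwists`, `Pool.Agent.Y715`) gives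
the property (in terms of `Ш(A / K)`) if the Laplacian over `𝔽₂` of the graph of the quadratic residue
symbols of the elements of `P` has the constants as its kernel, and if `∏ π` is not `1` modulo
`4 (1 + i)`. The distribution over the family is project TG of helper16 (`Pool/Agent/T2h16/TG`, on top
of project TK), see `MP_a43263_nt/OrderTwoPowerTwists`. The step from `Ш(A / K)` to `V_2 A` is
`Pool/Agent/T3h73/TG/BK.lean`.
-/

set_option autoImplicit false

namespace Pool.Agent.Results.MP_009fd8_ag.OrderTwoPowerBlochKato

open T2h16.TG.Def2 Pool.Agent.T3h73.TG.BKDef3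

/-- **Main theorem.** -/
theorem result (k : ℕ) (hk : 3 ≤ k) :
    -- the sums over the family converge for `s > 1`, and tend to infinity for `s → 1`
    Convergent k ∧ Divergent k ∧
    -- the constant
    0.2097 < 1 / 2 * kappa ∧
    -- the lower density
    ∀ ε : ℝ, 0 < ε → AtLeast k ZeroAll (1 / 2 * kappa - ε) :=
  ⟨Pool.Agent.T3h73.TG.BKFin.convergent k hk, Pool.Agent.T3h73.TG.BKFin.divergent k hk,
    T2h16.TG.NUM2.t_NUM2, Pool.Agent.T3h73.TG.BKFin.atLeast_zeroAll k hk⟩

end Pool.Agent.Results.MP_009fd8_ag.OrderTwoPowerBlochKato
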